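import Pool.Agent.T9h3.LN.Spec3

/-!
# Project LN (MP_4d1008_ag), piece H: Hilbert 90 for an automorphism of prime order
-/

set_option autoImplicit false
set_option linter.overlappingInstances false

namespace Pool.Agent.T9h89.LN

open Pool.Agent.T9h3.LN

theorem iter_inj {M : Type} [Field M] (σ : M ≃+* M) (r : ℕ) (hr : r.Prime) (h1 : ∀ x, (σ^[r]) x = x)
    (h2 : σ ≠ 1) (i j : ℕ) (_hi : i < r) (hj : j < r) (hij : i < j) : ¬ ∀ x, (σ^[i]) x = (σ^[j]) x := by
  intro h
  have h3 : ∀ x, (σ^[j - i]) x = x := by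
    intro x
    have h4 := h x
    rw [show j = i + (j - i) by omega, Function.iterate_add_apply] at h4
    exact ((σ.injective.iterate i) h4).symm
  have hcop : Nat.Coprime (j - i) r :=
    ((Nat.Prime.coprime_iff_not_dvd hr).2 fun hdvd =>
      absurd (Nat.le_of_dvd (by omega) hdvd) (by omega)).symm
  apply h2
  ext x
  have hp1 : Function.IsPeriodicPt σ (j - i) x := h3 x
  have hp2 : Function.IsPeriodicPt σ r x := h1 x
  have hp := hp1.gcd hp2
  rw [Nat.Coprime] at hcop
  rw [hcop] at hp
  have : σ x = x := hp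
  simpa using this

/-- **H** -/
theorem h90 : S_H90 := by
  classical
  intro M _ σ r hr h1 h2 a ha
  -- the characters
  let χ : Fin r → (M →* M) := fun i => ((σ ^ (i : ℕ) : M ≃+* M) : M →+* M).toMonoidHom
  have hpow : ∀ (n : ℕ) (x : M), (σ ^ n) x = (σ^[n]) x := by
    intro n
    induction n with
    | zero => intro x; rfl
    | succ n ih =>
      intro x
      rw [pow_succ, RingAut.mul_apply, ih, Function.iterate_succ_apply]
  have hχ : ∀ i x, χ i x = (σ^[(i : ℕ)]) x := fun i x => hpow _ _
  have hinj : Function.Injective χ := by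
    intro i j hij
    by_contra hne
    have hval : (i : ℕ) ≠ (j : ℕ) := fun h => hne (Fin.ext h)
    rcases lt_or_gt_of_ne hval with h | h
    · apply iter_inj σ r hr h1 h2 i j i.2 j.2 h
      intro x
      rw [← hχ, ← hχ, hij]
    · apply iter_inj σ r hr h1 h2 j i j.2 i.2 h
      intro x
      rw [← hχ, ← hχ, hij]
  have hlin := (linearIndependent_monoidHom M M).comp χ hinj
  set A : ℕ → M := fun i => ∏ j ∈ Finset.range i, (σ^[j]) a with hA
  -- a nonzero value
  obtain ⟨c, hc⟩ : ∃ c : M, ∑ i ∈ Finset.range r, A i * (σ^[i]) c ≠ 0 := by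
    by_contra hcon
    push Not at hcon
    have h3 := Fintype.linearIndependent_iff.1 hlin (fun i => A i) (by
      funext x
      have := hcon x
      rw [← Fin.sum_univ_eq_sum_range (fun i => A i * (σ^[i]) x)] at this
      rw [Finset.sum_apply, Pi.zero_apply, ← this]
      apply Finset.sum_congr rfl
      intro i _
      rw [Pi.smul_apply, smul_eq_mul]
      show A i * χ i x = _
      rw [hχ])
    have h4 := h3 ⟨0, hr.pos⟩
    simp [hA] at h4
  set b : M := ∑ i ∈ Finset.range r, A i * (σ^[i]) c with hb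
  have hσA : ∀ i, a * σ (A i) = A (i + 1) := by
    intro i
    simp only [hA]
    rw [map_prod, Finset.prod_range_succ']
    rw [mul_comm]
    congr 1
    apply Finset.prod_congr rfl
    intro j _
    rw [Function.iterate_succ_apply']
  have hAr : A r = 1 := ha
  have hA0 : A 0 = 1 := by simp [hA]
  have hab : a * σ b = b := by
    have h5 : a * σ b = ∑ i ∈ Finset.range r, A (i + 1) * (σ^[i + 1]) c := by
      rw [hb, map_sum, Finset.mul_sum]
      apply Finset.sum_congr rfl
      intro i _
      rw [map_mul, ← mul_assoc, hσA, Function.iterate_succ_apply']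
    have h6 := Finset.sum_range_succ' (fun i => A i * (σ^[i]) c) r
    have h7 := Finset.sum_range_succ (fun i => A i * (σ^[i]) c) r
    rw [h7] at h6
    rw [h5]
    have h8 : A r * (σ^[r]) c = A 0 * (σ^[0]) c := by
      rw [hAr, hA0, h1]
      rfl
    rw [h8] at h6
    exact (add_right_cancel h6).symm
  refine ⟨b⁻¹, inv_ne_zero hc, ?_⟩
  rw [map_inv₀]
  have hσb : σ b ≠ 0 := by
    intro h
    apply hc
    rw [← hab, h, mul_zero]
  have h9 : a = b * (σ b)⁻¹ := by
    rw [eq_mul_inv_iff_mul_eq₀ hσb]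
    exact hab
  have hcb : b ≠ 0 := hc
  calc a * b⁻¹ = (b * (σ b)⁻¹) * b⁻¹ := by rw [← h9]
    _ = (σ b)⁻¹ := by field_simp

end Pool.Agent.T9h89.LN
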