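import Pool.Agent.T9h3.LN.Spec5

/-!
# Project LN, fifth part, piece (D): the local lemma for classes of order prime to `r`
-/

set_option autoImplicit false
set_option linter.overlappingInstances false

namespace Pool.Agent.T9h89.LN

open Pool.Agent.T9h3.LN

theorem locD : S_LocD := by
  intro A' L D' _ _ _ _ _ r d hr hcop hd W' S' v' hv hS ν hν hW c a₁ A2 hdiv h1 h2
  -- the Bezout identity
  obtain ⟨α, β, hαβ⟩ : ∃ α β : ℤ, α * d + β * (r : ℤ) ^ 2 = 1 := by
    have hc2 : IsCoprime (d : ℤ) ((r : ℤ) ^ 2) := by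
      have := (Nat.isCoprime_iff_coprime.2 hcop).pow_right (n := 2)
      exact this
    obtain ⟨α, β, h⟩ := hc2
    exact ⟨α, β, h⟩
  have hd0 : (d : ℤ) ≠ 0 := by exact_mod_cast hd
  let n : L → ℤ := fun x => v' (a₁ x) / d
  have hn : ∀ x, (d : ℤ) * n x = v' (a₁ x) := fun x => Int.mul_ediv_cancel' (hdiv x)
  have hnadd : ∀ x y, n (x + y) = n x + n y := by
    intro x y
    apply mul_left_cancel₀ hd0
    rw [mul_add, hn, hn, hn, map_add, map_add]
  let m : L → ℤ := fun x => r * n x - v' (A2 x)
  have hmdef : ∀ x, m x = r * n x - v' (A2 x) := fun x => rfl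
  have hmadd : ∀ x y, m (x + y) = m x + m y := by
    intro x y
    rw [hmdef, hmdef, hmdef, hnadd, map_add, map_add]
    ring
  let a' : L →+ A' := AddMonoidHom.mk' (fun x => α • a₁ x + β • ((r : ℤ) • A2 x + m x • ν)) (by
    intro x y
    rw [map_add, map_add, hmadd, smul_add, smul_add, smul_add, smul_add, smul_add, smul_add, add_smul,
      smul_add]
    abel)
  have ha' : ∀ x, a' x = α • a₁ x + β • ((r : ℤ) • A2 x + m x • ν) := fun x => rfl
  have hvn : ∀ x, v' (a' x) = n x := by
    intro x
    rw [ha', map_add, map_zsmul, map_zsmul, map_add, map_zsmul, map_zsmul, hν, ← hn, hmdef]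
    simp only [smul_eq_mul]
    linear_combination (n x) * hαβ
  have hnc : ∀ g x, n (g⁻¹ • x) - n x = v' (c g x) := by
    intro g x
    have h3 := hS _ (h1 g x)
    rw [map_sub, map_sub, map_nsmul, hv, ← hn, ← hn] at h3
    apply mul_left_cancel₀ hd0
    rw [nsmul_eq_mul] at h3
    linear_combination -h3
  refine ⟨a', ?_, ?_⟩
  · intro g x
    rw [map_sub, map_sub, hv, hvn, hvn, hnc, sub_self]
  · intro w hw x
    have hm : m (w⁻¹ • x) = m x := by
      have h3 := congrArg v' (h2 w hw x)
      rw [map_nsmul, map_sub, hv, nsmul_eq_mul] at h3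
      have h4 := hnc w x
      rw [hmdef, hmdef]
      linear_combination (r : ℤ) * h4 + h3
    have h5 : c w x - (w • a' (w⁻¹ • x) - a' x) =
        α • (d • c w x - (w • a₁ (w⁻¹ • x) - a₁ x)) := by
      have e1 : w • a' (w⁻¹ • x) = α • (w • a₁ (w⁻¹ • x)) +
          β • ((r : ℤ) • (w • A2 (w⁻¹ • x)) + m x • ν) := by
        rw [ha', hm, smul_add, smul_comm w α, smul_comm w β, smul_add, smul_comm w (r : ℤ),
          smul_comm w (m x), hW w hw]
      have e2 : w • A2 (w⁻¹ • x) = (r : ℤ) • c w x + A2 x := by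
        rw [natCast_zsmul, h2 w hw x]
        abel
      have e3 : (α * d + β * (r : ℤ) ^ 2) • c w x = c w x := by rw [hαβ, one_smul]
      rw [e1, e2, ha']
      nth_rewrite 1 [← e3]
      rw [← natCast_zsmul (c w x) d]
      generalize w • a₁ (w⁻¹ • x) = p1
      generalize c w x = p2
      generalize a₁ x = p3
      generalize A2 x = p4
      generalize m x = p5
      module
    rw [h5]
    exact S'.zsmul_mem (h1 w x) α

end Pool.Agent.T9h89.LN
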